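import Mathlib
import Pool.Agent.T2H27.ByCond

/-!
# Szpiro's conjecture for all semistable curves ordered by conductor

The semistable elliptic curves over `ℚ` with conductor `N ≤ X`, naive height `≤ X ^ A` and
`N ^ κ ≤ |Δ|` are counted, with no condition on torsion, isogenies or the `j`-invariant. Their
number is at most `C X ^ (max (1 - κ/6) (A/2) + ε)` for all `κ ≥ 1` and `A > 0`, and it is
`X ^ (1 - κ/6 + o(1))` for `1 ≤ κ < A ≤ 2 - κ/3`. For `κ = 1` the condition `N ^ κ ≤ |Δ|` is empty: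
the number of semistable curves with `N ≤ X` and height `≤ X ^ A` is `X ^ (5/6 + o(1))` for
`1 < A ≤ 5/3`.

The upper bound splits the curves according to the size of the invariants, the distance to the
cusps `Δ = 0` and the size of the conductor, and applies to each piece the bound
`C Z ^ ε (d⁴ Z³ / Λ + Z³)` for the number of curves with `|c₄| ≤ Z²`, `|c₆| ≤ Z³`,
`|c₄³ - c₆²| ≤ d⁴ Z⁴` and `Λ N ≤ |Δ|` (`T2H27.Szp.main_pairs`).
-/

set_option autoImplicit false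

namespace Pool.Agent.Results.MP_d8bd92_nt.AllCurvesByConductor

open Filter Topology

/-- the product of the distinct primes dividing `Δ(W)` (the conductor if `gcd(c₄, Δ) = 1`) -/
def conductor (W : WeierstrassCurve ℤ) : ℕ := ∏ p ∈ W.Δ.natAbs.primeFactors, p

/-- the invariants `(c₄, c₆)` of the integral Weierstrass curves with `Δ ≠ 0` and `gcd(c₄, Δ) = 1`
(the minimal models of the semistable elliptic curves over `ℚ`) having conductor `N ≤ X`,
`N ^ κ ≤ |Δ|` and naive height `max (|c₄|³, c₆²) ≤ X ^ A` -/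
def Curves (κ A X : ℝ) : Set (ℤ × ℤ) :=
  {q | ∃ W : WeierstrassCurve ℤ, W.Δ ≠ 0 ∧ IsCoprime W.c₄ W.Δ ∧ q = (W.c₄, W.c₆) ∧
    (conductor W : ℝ) ≤ X ∧ (conductor W : ℝ) ^ κ ≤ |(W.Δ : ℝ)| ∧
    |(W.c₄ : ℝ)| ^ 3 ≤ X ^ A ∧ (W.c₆ : ℝ) ^ 2 ≤ X ^ A}

/-- (1) For all `κ ≥ 1` and `A, ε > 0` at most `C X ^ (max (1 - κ/6) (A/2) + ε)` isomorphism classes
of semistable elliptic curves over `ℚ` have `N ≤ X`, height at most `X ^ A` and `N ^ κ ≤ |Δ|`.
(2) For `1 ≤ κ < A ≤ 2 - κ/3` the number of them is `X ^ (1 - κ/6 + o(1))`. -/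
theorem result :
    (∀ κ A ε : ℝ, 1 ≤ κ → 0 < A → 0 < ε → ∃ C : ℝ, 0 < C ∧ ∀ X : ℝ, 1 ≤ X →
      (Curves κ A X).Finite ∧
      ((Curves κ A X).ncard : ℝ) ≤ C * X ^ (max (1 - κ / 6) (A / 2) + ε)) ∧
    ∀ κ A : ℝ, 1 ≤ κ → κ < A → A ≤ 2 - κ / 3 →
      Tendsto (fun X : ℝ => Real.log ((Curves κ A X).ncard : ℝ) / Real.log X) atTop
        (𝓝 (1 - κ / 6)) := by
  refine ⟨fun κ A ε hκ hA hε => ?_, fun κ A h1 h2 h3 =>
    Pool.Agent.T2H27.Szp.exact_expC κ A h1 h2 h3⟩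
  obtain ⟨C, hC, h⟩ := Pool.Agent.T2H27.Szp.upperC κ A ε hκ hA hε
  exact ⟨C, hC, fun X hX => ⟨Pool.Agent.T2H27.Szp.crv_finite κ A X hX, h X hX⟩⟩

end Pool.Agent.Results.MP_d8bd92_nt.AllCurvesByConductor
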