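import Mathlib
import Pool.Agent.T2H27.Low

/-!
# The exceptional set of Szpiro's conjecture among all semistable curves: the exact exponent

All semistable elliptic curves over `ℚ` of naive height at most `X⁶` are counted, with no condition
on torsion or isogenies and with no condition on the `j`-invariant. Their number is of order `X⁵`.
We show that at most `C X ^ (max (6/κ - 1) 3 + ε)` of them have `|Δ| > c₀ N ^ κ`, for every `κ ≥ 1`,
and that the number of them is `X ^ (6/κ - 1 + o(1))` for `1 ≤ κ ≤ 3/2`.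

Proof of the upper bound: let `P` be the powerful part of `Δ`, `u` its radical, `P = m² q` or
`2 m² q` with `q` odd and squarefree, `q ∣ m`. If `u ≤ 12 X` then `B = c₆` is counted modulo `P` for
every `A = c₄`. Otherwise `x³ - 3Ax + 2B` has a double root `r` modulo `P`, and its restriction to
the lattice of the `(x, y) ≡ (r y, y)` modulo `m`, divided by `m²`, is an integral binary cubic form
which has a double root modulo `q` and represents `m`. It is expanded in a basis of the lattice
which is reduced with respect to the position of the real double point, and the pairs (form,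
representation of `m`) are counted: in a box of dimension 6 if `m` is large; for fixed `m`, `q` on
a hyperplane, with a quadratic congruence modulo `q` and with many bases for every curve, if `m` is
small.
-/

set_option autoImplicit false

namespace Pool.Agent.Results.MP_d8bd92_nt.AllCurvesExactExponent

open Filter Topology

/-- the product of the distinct primes dividing `Δ(W)` (the conductor if `gcd(c₄, Δ) = 1`) -/
def conductor (W : WeierstrassCurve ℤ) : ℕ := ∏ p ∈ W.Δ.natAbs.primeFactors, p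

/-- the invariants `(c₄, c₆)` of the integral Weierstrass curves with `Δ ≠ 0` and `gcd(c₄, Δ) = 1`
(the minimal models of the semistable elliptic curves over `ℚ`) having naive height
`max (|c₄|³, c₆²) ≤ X⁶` and `c₀ N ^ κ < |Δ|` -/
def Exceptional (κ c₀ X : ℝ) : Set (ℤ × ℤ) :=
  {q | ∃ W : WeierstrassCurve ℤ, W.Δ ≠ 0 ∧ IsCoprime W.c₄ W.Δ ∧ q = (W.c₄, W.c₆) ∧
    |(W.c₄ : ℝ)| ^ 3 ≤ X ^ 6 ∧ (W.c₆ : ℝ) ^ 2 ≤ X ^ 6 ∧
    c₀ * (conductor W : ℝ) ^ κ < |(W.Δ : ℝ)|}

/-- (1) For all `κ ≥ 1` and `c₀, ε > 0` at most `C X ^ (max (6/κ - 1) 3 + ε)` isomorphism classes of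
semistable elliptic curves over `ℚ` of naive height at most `X⁶` have `c₀ N ^ κ < |Δ|`.
(2) For `1 ≤ κ ≤ 3/2` and `c₀ > 0` the number of them is `X ^ (6/κ - 1 + o(1))`. -/
theorem result :
    (∀ κ c₀ ε : ℝ, 1 ≤ κ → 0 < c₀ → 0 < ε → ∃ C : ℝ, 0 < C ∧ ∀ X : ℝ, 1 ≤ X →
      (Exceptional κ c₀ X).Finite ∧
      ((Exceptional κ c₀ X).ncard : ℝ) ≤ C * X ^ (max (6 / κ - 1) 3 + ε)) ∧
    ∀ κ c₀ : ℝ, 1 ≤ κ → κ ≤ 3 / 2 → 0 < c₀ →
      Tendsto (fun X : ℝ => Real.log ((Exceptional κ c₀ X).ncard : ℝ) / Real.log X) atTop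
        (𝓝 (6 / κ - 1)) := by
  refine ⟨fun κ c₀ ε hκ hc₀ hε => ?_, fun κ c₀ h1 h2 h3 =>
    Pool.Agent.T2H27.Szp.exact_exp κ c₀ h1 h2 h3⟩
  obtain ⟨C, hC, h⟩ := Pool.Agent.T2H27.Szp.upper κ c₀ ε hκ hc₀ hε
  exact ⟨C, hC, fun X hX => ⟨Pool.Agent.T2H27.Szp.exc_finite κ c₀ X (by linarith), h X hX⟩⟩

end Pool.Agent.Results.MP_d8bd92_nt.AllCurvesExactExponent
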