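import Mathlib
import Pool.Agent.T2H27.Law.Total

/-!
# The law of `|Δ| / N` for semistable curves ordered by conductor

An asymptotic formula with an explicit constant for the number of semistable elliptic curves over
`ℚ` with conductor `N ≤ X`, naive height `≤ X ^ A` and `|Δ| / N` in a given set `S` of positive
integers, for every `1 < A < 5/3` and every `S`. There is no condition at `2` and `3`, on the
`j`-invariant, on torsion or on isogenies.

With `S` the set of all positive integers it is the asymptotic number of all these curves; with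
`S = {n}` it gives the limiting proportion `weight n / ∑ weight` of the curves with `|Δ| = n N`
(in the language of Szpiro's conjecture: `|Δ| / N` has a limiting distribution, in particular
`|Δ| ≤ g(X) N` for almost all of these curves whenever `g(X) → ∞`).

Proof. The reduced Weierstrass equations form twelve two-parameter families. For each of them the
integral points near the cusps `|c₄³ - c₆²| ≤ 1728 n X` with a congruence condition are counted by
comparison with an integral (`T2H27.Law.RR_tendsto`), the local densities at all primes (also at `2`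
and `3`) are computed (`T2H27.Law.dens`, `T2H27.Law.avg`), and the tails are bounded: additive
reduction at a large prime (`tail1`), `p² ∣ Δ` for a large prime `p ≤ X ^ (1/100)` (`tail2`), large
`|Δ| / N ≤ X ^ (1/100)` (`tail3`), and `|Δ| > X ^ (1/100) N` by the bound
`X ^ (max (1 - κ/6) (A/2) + ε)` for the curves with `|Δ| ≥ N ^ κ`, `κ = 1 + 1/100`.
-/

set_option autoImplicit false

namespace Pool.Agent.Results.MP_d8bd92_nt.LawOfDiscriminantOverConductor

open Filter Topology MeasureTheory

/-- the product of the distinct primes dividing `Δ(W)` (the conductor if `gcd(c₄, Δ) = 1`) -/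
def conductor (W : WeierstrassCurve ℤ) : ℕ := ∏ p ∈ W.Δ.natAbs.primeFactors, p

/-- the invariants `(c₄, c₆)` of the integral Weierstrass curves with `Δ ≠ 0` and `gcd(c₄, Δ) = 1`
(the minimal models of the semistable elliptic curves over `ℚ`) having conductor `N ≤ X`,
naive height `max (|c₄|³, c₆²) ≤ X ^ A` and `|Δ| / N ∈ S` -/
def Curves (S : Set ℕ) (A X : ℝ) : Set (ℤ × ℤ) :=
  {q | ∃ W : WeierstrassCurve ℤ, W.Δ ≠ 0 ∧ IsCoprime W.c₄ W.Δ ∧ q = (W.c₄, W.c₆) ∧
    (conductor W : ℝ) ≤ X ∧ (∃ n ∈ S, W.Δ.natAbs = n * conductor W) ∧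
    |(W.c₄ : ℝ)| ^ 3 ≤ X ^ A ∧ (W.c₆ : ℝ) ^ 2 ≤ X ^ A}

/-- `n ^ (-1/6) ∏_{p ∣ n} (p - 1) / (p² + p - 1)` -/
noncomputable def weight (n : ℕ) : ℝ :=
  (n : ℝ) ^ (-(1 / 6 : ℝ)) * ∏ p ∈ n.primeFactors, ((p : ℝ) - 1) / ((p : ℝ) ^ 2 + p - 1)

/-- `∫ (√(x³ + 1) - √(x³ - 1)) dx` (the root of a negative number is `0`), half of the area of
`|x³ - y²| ≤ 1` -/
noncomputable def area : ℝ := ∫ x : ℝ, (√(x ^ 3 + 1) - √(x ^ 3 - 1))

open Classical in
/-- The product `E` of the `1 - 2/p² + 1/p³` converges and is positive, the weights are positive and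
summable, the area is positive, and for every set `S` of natural numbers and every `1 < A < 5/3` the
number of isomorphism classes of semistable elliptic curves over `ℚ` with `N ≤ X`, height at most
`X ^ A` and `|Δ| / N ∈ S` is finite and is asymptotic to `area · E / √12 · (∑ n ∈ S, weight n) ·
X ^ (5/6)`. -/
theorem result : ∃ E : ℝ, 0 < E ∧
    Tendsto (fun w : ℕ => ∏ p ∈ w.primesBelow, (1 - 2 / (p : ℝ) ^ 2 + 1 / (p : ℝ) ^ 3)) atTop
      (𝓝 E) ∧
    0 < area ∧ Summable weight ∧ (∀ n : ℕ, n ≠ 0 → 0 < weight n) ∧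
    ∀ (S : Set ℕ) (A : ℝ), 1 < A → A < 5 / 3 →
      (∀ X : ℝ, 1 ≤ X → (Curves S A X).Finite) ∧
      Tendsto (fun X : ℝ => ((Curves S A X).ncard : ℝ) / X ^ ((5 : ℝ) / 6)) atTop
        (𝓝 (area * E / √12 * ∑' n, if n ∈ S then weight n else 0)) := by
  refine ⟨Pool.Agent.T2H27.Law.E0, Pool.Agent.T2H27.Law.E0_pos, ?_, Pool.Agent.T2H27.Law.I0_pos,
    Pool.Agent.T2H27.Law.wt_summable, fun n hn => Pool.Agent.T2H27.Law.wt_pos hn, ?_⟩
  · refine Pool.Agent.T2H27.Law.EW_tendsto.congr (fun w => ?_)
    unfold Pool.Agent.T2H27.Law.EW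
    exact Finset.prod_congr rfl (fun p _ => Pool.Agent.T2H27.Law.lam0 p)
  · intro S A h1 h2
    have hset : ∀ X : ℝ, Curves S A X = Pool.Agent.T2H27.Law.CSt S A X := by
      intro X
      ext q
      constructor
      · rintro ⟨W, a1, a2, a3, a4, ⟨n, hn, a5⟩, a6, a7⟩
        exact ⟨n, hn, W, a1, a2, a3, a4, a5, a6, a7⟩
      · rintro ⟨n, hn, W, a1, a2, a3, a4, a5, a6, a7⟩
        exact ⟨W, a1, a2, a3, a4, ⟨n, hn, a5⟩, a6, a7⟩
    refine ⟨fun X hX => ?_, ?_⟩
    · rw [hset]
      exact (Pool.Agent.T2H27.Law.CT_finite A X hX).subset (Pool.Agent.T2H27.Law.CSt_sub S A X)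
    · have h3 := Pool.Agent.T2H27.Law.CSt_tendsto S h1 h2
      have e : area * Pool.Agent.T2H27.Law.E0 / √12 * (∑' n, if n ∈ S then weight n else 0) =
          Pool.Agent.T2H27.Law.kap *
            ∑' n, if n ∈ S then Pool.Agent.T2H27.Law.wt n else 0 := by
        rw [Pool.Agent.T2H27.Law.kap_eq]
        have e1 : area = Pool.Agent.T2H27.Law.I0 := rfl
        have e2 : weight = Pool.Agent.T2H27.Law.wt := rfl
        rw [e1, e2]
        ring
      rw [e]
      refine h3.congr (fun X => ?_)
      rw [hset]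

end Pool.Agent.Results.MP_d8bd92_nt.LawOfDiscriminantOverConductor
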