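import Mathlib
import Pool.Agent.T2H27.Two.Lo

/-!
# The exceptional set of Szpiro's conjecture among the semistable curves with a rational point of
order two: the exact exponent for `κ ≤ 9/4`

The semistable elliptic curves over `ℚ` with a rational point of order 2 and naive height at most
`X⁶` are about `X³` in number. We show that at most
`C X ^ (min 3 (max (6/κ - 1) (1 + 3/(2κ))) + ε)` of them have `|Δ| > c₀ N ^ κ`, for every `κ > 0`,
and that their number is `X ^ (min 3 (6/κ - 1) + o(1))` for `0 < κ ≤ 9/4`.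

Proof of the upper bound: a curve gives `A² = 4 B + C` with `rad B · rad C ≤ 2 N`. Let
`rad B = x s c` where `x`, `s`, `c` are the products of the primes of exponent `1`, `2`, `≥ 3`, and
`rad C = x' s' c'` in the same way. If everything but `x'` is fixed in `B`, `C`, then `A` is counted
modulo the powerful part of `C`; if moreover `s` is not fixed, the pairs `(A, s)` are counted in
lattices modulo the powerful part of `C`. This and the same with `B`, `C` exchanged gives four bounds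
`N / x'`, `N / x`, `N / (s x')`, `N / (s' x)`, each increased by `N / X`. The product of the four
is at most `N X⁴`, so one of them is at most `N ^ (1/4) X`.
-/

set_option autoImplicit false

namespace Pool.Agent.Results.MP_d8bd92_nt.TwoTorsionExactExponent

open Filter Topology

/-- the product of the distinct primes dividing `Δ(W)` (the conductor if `gcd(c₄, Δ) = 1`) -/
def conductor (W : WeierstrassCurve ℤ) : ℕ := ∏ p ∈ W.Δ.natAbs.primeFactors, p

/-- there is a rational point of order 2: `4x³ + b₂x² + 2b₄x + b₆` has a rational root -/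
def HasTwoTorsion (W : WeierstrassCurve ℤ) : Prop :=
  ∃ r : ℚ, 4 * r ^ 3 + W.b₂ * r ^ 2 + 2 * W.b₄ * r + W.b₆ = 0

/-- the invariants `(c₄, c₆)` of the integral Weierstrass curves with `Δ ≠ 0` and `gcd(c₄, Δ) = 1`
(the minimal models of the semistable elliptic curves over `ℚ`) having a rational point of
order 2, naive height `max (|c₄|³, c₆²) ≤ X⁶` and `c₀ N ^ κ < |Δ|` -/
def Exceptional (κ c₀ X : ℝ) : Set (ℤ × ℤ) :=
  {q | ∃ W : WeierstrassCurve ℤ, W.Δ ≠ 0 ∧ IsCoprime W.c₄ W.Δ ∧ HasTwoTorsion W ∧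
    q = (W.c₄, W.c₆) ∧ |(W.c₄ : ℝ)| ^ 3 ≤ X ^ 6 ∧ (W.c₆ : ℝ) ^ 2 ≤ X ^ 6 ∧
    c₀ * (conductor W : ℝ) ^ κ < |(W.Δ : ℝ)|}

/-- (1) For all `κ, c₀, ε > 0` at most `C X ^ (min 3 (max (6/κ - 1) (1 + 3/(2κ))) + ε)` isomorphism
classes of semistable elliptic curves over `ℚ` with a rational point of order 2 and naive height at
most `X⁶` have `c₀ N ^ κ < |Δ|`. (2) For `0 < κ ≤ 9/4` the number of them is
`X ^ (min 3 (6/κ - 1) + o(1))`. -/
theorem result :
    (∀ κ c₀ ε : ℝ, 0 < κ → 0 < c₀ → 0 < ε → ∃ C : ℝ, 0 < C ∧ ∀ X : ℝ, 1 ≤ X →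
      (Exceptional κ c₀ X).Finite ∧
      ((Exceptional κ c₀ X).ncard : ℝ) ≤
        C * X ^ (min 3 (max (6 / κ - 1) (1 + 3 / (2 * κ))) + ε)) ∧
    ∀ κ c₀ : ℝ, 0 < κ → κ ≤ 9 / 4 → 0 < c₀ →
      Tendsto (fun X : ℝ => Real.log ((Exceptional κ c₀ X).ncard : ℝ) / Real.log X) atTop
        (𝓝 (min 3 (6 / κ - 1))) := by
  refine ⟨fun κ c₀ ε hκ hc₀ hε => ?_, fun κ c₀ h1 h2 h3 =>
    Pool.Agent.T2H27.Two.exact2 κ c₀ h1 h2 h3⟩
  obtain ⟨C, hC, h⟩ := Pool.Agent.T2H27.Two.upper2 κ c₀ ε hκ hc₀ hε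
  exact ⟨C, hC, fun X hX => ⟨Pool.Agent.T2H27.Two.exc2_finite κ c₀ X hX, h X hX⟩⟩

end Pool.Agent.Results.MP_d8bd92_nt.TwoTorsionExactExponent
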